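import Pool.Agent.ELS.Defs
import Pool.Agent.ChL.TriSet
import Pool.Agent.ChL.QInvDim

/-!
# The first rational Betti numbers of finite coverings: definitions
-/

namespace Pool.Agent.ChB

open Matrix Pool.Agent.ChP Pool.Agent.ChS Pool.Agent.ChL Pool.Agent.ELS
open scoped Pointwise

variable {n : ℕ} (K : AffineTriangulation n)

/-- The ordered edges, as a type. -/
def EdT : Type := {e : K.V × K.V // e ∈ Ed K}

/-- The ordered triangles, as a type. -/
def TrT : Type := {e : K.V × K.V × K.V // e ∈ Tr K}

instance : MulAction K.Γ (EdT K) where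
  smul g e := ⟨g • e.1, ed_inv g e.1 e.2⟩
  one_smul e := Subtype.ext (one_smul _ _)
  mul_smul a b e := Subtype.ext (mul_smul _ _ _)

theorem edT_smul_val (g : K.Γ) (e : EdT K) : (g • e).1 = g • e.1 := rfl

variable {K}

/-- the edge `(u, v)` of the triangle `(u, v, w)` -/
def e01 (t : TrT K) : EdT K := ⟨(t.1.1, t.1.2.1), K.down_closed _ t.2 _ (by
  intro x hx
  simp only [Finset.mem_insert, Finset.mem_singleton] at hx ⊢
  tauto) (by simp)⟩

/-- the edge `(v, w)` of the triangle `(u, v, w)` -/
def e12 (t : TrT K) : EdT K := ⟨(t.1.2.1, t.1.2.2), K.down_closed _ t.2 _ (by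
  intro x hx
  simp only [Finset.mem_insert, Finset.mem_singleton] at hx ⊢
  tauto) (by simp)⟩

/-- the edge `(u, w)` of the triangle `(u, v, w)` -/
def e02 (t : TrT K) : EdT K := ⟨(t.1.1, t.1.2.2), K.down_closed _ t.2 _ (by
  intro x hx
  simp only [Finset.mem_insert, Finset.mem_singleton] at hx ⊢
  tauto) (by simp)⟩

variable (K)

/-- The equations of the 1-cocycles. -/
noncomputable def cyc (t : TrT K) : EdT K →₀ ℤ :=
  Finsupp.single (e01 t) 1 + Finsupp.single (e12 t) 1 - Finsupp.single (e02 t) 1

/-- The crossed homomorphisms with values in a representation on `ℝ^d`. -/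
def ZV {H : Type*} [Group H] {d : ℕ} (ρ : H → Matrix (Fin d) (Fin d) ℝ) :
    Submodule ℝ (H → Fin d → ℝ) where
  carrier := {z | ∀ g h, z (g * h) = z g + ρ g *ᵥ z h}
  add_mem' := by
    intro a b ha hb g h
    simp only [Pi.add_apply]
    rw [ha, hb, Matrix.mulVec_add]
    abel
  zero_mem' := by
    intro g h
    simp
  smul_mem' := by
    intro c a ha g h
    simp only [Pi.smul_apply]
    rw [ha, smul_add, Matrix.mulVec_smul]

end Pool.Agent.ChB
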