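import Pool.Agent.ChB.EdgeSys

/-!
# Many equivariant 1-cocycles

Let `P` be the space of the pairs `(f, z)`, `f : V → ℝ^d`, `z ∈ ZV` (for `H`), with
`f (h v) = ρ h *ᵥ f v + z h` for `h ∈ H`.  Its dimension is `d * card orbits + finrank (ZV)`: choose
representatives `v_O` of the `H`-orbits of vertices; `z` and the values `f v_O` can be chosen
arbitrarily, and then `f (h v_O) = ρ h *ᵥ f v_O + z h` (the action is free).  The linear map which sends
`(f, z)` to `c (u, v) = f v - f u` has values in `ESol ℝ (cyc K) ρ H` (`cyc_sum`).  If `c = 0` then `f` is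
constant (`Connected`), `f = w`, and `z h = w - ρ h *ᵥ w`: the kernel has dimension at most `d`.  (`ESol` is
finite dimensional: a function in `ESol` is determined by its values at representatives of the orbits
of edges, of which there are finitely many; `edT_finite`.  If `ZV` is infinite dimensional its `finrank` is `0`;
but it is finite dimensional because `H` is finitely generated.)
-/

namespace Pool.Agent.ChB

open Matrix Pool.Agent.ChP Pool.Agent.ChS Pool.Agent.ChL Pool.Agent.ELS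
open scoped Pointwise

private theorem ELow_esol_fin {Γ X Y : Type*} [Group Γ] [MulAction Γ X] (a : Y → X →₀ ℤ)
    {d : ℕ} (ρ : Γ → Matrix (Fin d) (Fin d) ℝ) (H : Subgroup Γ) (hH : H.FiniteIndex)
    (hX : Finite (MulAction.orbitRel.Quotient Γ X)) : Module.Finite ℝ (ESol ℝ a ρ H) := by
  classical
  have := hH
  have := hX
  obtain ⟨L, hL⟩ : ∃ L : ESol ℝ a ρ H →ₗ[ℝ]
      (((Γ ⧸ H) × MulAction.orbitRel.Quotient Γ X) → Fin d → ℝ),
      ∀ f q, L f q = f.1 ((Quotient.out q.1 : Γ)⁻¹ • (Quotient.out q.2 : X)) :=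
    ⟨{ toFun := fun f q => f.1 ((Quotient.out q.1 : Γ)⁻¹ • (Quotient.out q.2 : X))
       map_add' := fun a b => rfl
       map_smul' := fun c a => rfl }, fun f q => rfl⟩
  refine Module.Finite.of_injective L ?_
  rw [injective_iff_map_eq_zero]
  intro f hf
  apply Subtype.ext
  funext x
  have h1 : (Quotient.mk _ x : MulAction.orbitRel.Quotient Γ X) =
      Quotient.mk _ (Quotient.out (Quotient.mk _ x : MulAction.orbitRel.Quotient Γ X)) :=
    (Quotient.out_eq _).symm
  obtain ⟨γ, hγ⟩ := Quotient.exact h1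
  have h2 : (Quotient.out ((γ⁻¹ : Γ) : Γ ⧸ H))⁻¹ * γ⁻¹ ∈ H := by
    rw [← QuotientGroup.eq]
    exact Quotient.out_eq _
  have h3 := hL f ⟨((γ⁻¹ : Γ) : Γ ⧸ H), Quotient.mk _ x⟩
  rw [hf] at h3
  have h4 := f.2.1 _ (H.inv_mem h2) ((Quotient.out ((γ⁻¹ : Γ) : Γ ⧸ H) : Γ)⁻¹ •
    (Quotient.out (Quotient.mk _ x : MulAction.orbitRel.Quotient Γ X) : X))
  have h5 : ((Quotient.out ((γ⁻¹ : Γ) : Γ ⧸ H))⁻¹ * γ⁻¹)⁻¹ •
      ((Quotient.out ((γ⁻¹ : Γ) : Γ ⧸ H) : Γ)⁻¹ •
      (Quotient.out (Quotient.mk _ x : MulAction.orbitRel.Quotient Γ X) : X)) = x := by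
    rw [← mul_smul, _root_.mul_inv_rev, inv_inv, inv_inv, mul_assoc, mul_inv_cancel, mul_one]
    exact hγ
  rw [h5] at h4
  have h6 : f.1 ((Quotient.out ((γ⁻¹ : Γ) : Γ ⧸ H) : Γ)⁻¹ •
      (Quotient.out (Quotient.mk _ x : MulAction.orbitRel.Quotient Γ X) : X)) = 0 := h3.symm
  rw [h6, Matrix.mulVec_zero] at h4
  exact h4

private theorem ELow_one {G : Type*} [Group G] {d : ℕ} {ρ : G → Matrix (Fin d) (Fin d) ℝ}
    (hρ : ρ 1 = 1) {z : G → Fin d → ℝ} (hz : z ∈ ZV ρ) : z 1 = 0 := by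
  have h2 := hz 1 1
  rw [mul_one, hρ, Matrix.one_mulVec] at h2
  have h3 : z 1 + z 1 = z 1 + 0 := by rw [← h2, add_zero]
  exact add_left_cancel h3

private theorem ELow_zv_fin {G : Type*} [Group G] (hfg : Group.FG G) {d : ℕ}
    (ρ : G → Matrix (Fin d) (Fin d) ℝ) (hρ : ρ 1 = 1) : Module.Finite ℝ (ZV ρ) := by
  classical
  obtain ⟨S, hS⟩ := Group.fg_iff.mp hfg
  have : Finite S := hS.2
  obtain ⟨L, hL⟩ : ∃ L : ZV ρ →ₗ[ℝ] (S → Fin d → ℝ), ∀ f s, L f s = f.1 s.1 :=
    ⟨{ toFun := fun f s => f.1 s.1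
       map_add' := fun a b => rfl
       map_smul' := fun c a => rfl }, fun f s => rfl⟩
  refine Module.Finite.of_injective L ?_
  rw [injective_iff_map_eq_zero]
  intro f hf
  have hfm := f.2
  have h1 : f.1 1 = 0 := ELow_one hρ hfm
  have h4 : ∀ x : G, f.1 x = 0 := by
    intro x
    have hx : x ∈ Subgroup.closure S := by
      rw [hS.1]
      exact Subgroup.mem_top x
    refine Subgroup.closure_induction (p := fun y _ => f.1 y = 0) ?_ h1 ?_ ?_ hx
    · intro y hy
      have h5 := hL f ⟨y, hy⟩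
      rw [hf] at h5
      exact h5.symm
    · intro a b _ _ ha hb
      rw [hfm a b, ha, hb, Matrix.mulVec_zero, add_zero]
    · intro a _ ha
      have h6 := hfm a⁻¹ a
      rw [inv_mul_cancel, h1, ha, Matrix.mulVec_zero, add_zero] at h6
      exact h6.symm
  apply Subtype.ext
  funext x
  exact h4 x

variable {n : ℕ} (K : AffineTriangulation n)

private theorem ELow_coord (H : Subgroup K.Γ) :
    ∃ G : K.V → H, (∀ v, G v • (Quotient.out (Quotient.mk _ v :
      MulAction.orbitRel.Quotient H K.V)) = v) ∧ (∀ (g : H) (v : K.V), G (g • v) = g * G v) ∧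
      ∀ O : MulAction.orbitRel.Quotient H K.V, G (Quotient.out O) = 1 := by
  classical
  have hex : ∀ v : K.V, ∃ g : H,
      g • (Quotient.out (Quotient.mk _ v : MulAction.orbitRel.Quotient H K.V)) = v := by
    intro v
    have h1 : (Quotient.mk _ v : MulAction.orbitRel.Quotient H K.V) =
        Quotient.mk _ (Quotient.out (Quotient.mk _ v : MulAction.orbitRel.Quotient H K.V)) :=
      (Quotient.out_eq _).symm
    have h2 := Quotient.exact h1
    obtain ⟨g, hg⟩ := h2
    exact ⟨g, hg⟩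
  choose G hG using hex
  have hfree : ∀ (g h : H) (v : K.V), g • v = h • v → g = h := by
    intro g h v hgh
    have h1 : ((h : K.Γ)⁻¹ * (g : K.Γ)) • v = v := by
      have h2 : (g : K.Γ) • v = (h : K.Γ) • v := hgh
      rw [mul_smul, h2, inv_smul_smul]
    have h3 := v_free _ _ h1
    rw [inv_mul_eq_one] at h3
    exact Subtype.ext h3.symm
  refine ⟨G, hG, ?_, ?_⟩
  · intro g v
    have h1 : (Quotient.mk _ (g • v) : MulAction.orbitRel.Quotient H K.V) = Quotient.mk _ v :=
      Quotient.sound ⟨g, rfl⟩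
    have h2 := hG (g • v)
    rw [h1] at h2
    refine hfree _ _ (Quotient.out (Quotient.mk _ v : MulAction.orbitRel.Quotient H K.V)) ?_
    rw [h2, mul_smul, hG v]
  · intro O
    have h2 := hG (Quotient.out O)
    rw [Quotient.out_eq] at h2
    refine hfree _ _ (Quotient.out O) ?_
    rw [one_smul]
    exact h2

private theorem ELow_map {d : ℕ} (ρ : K.Γ →* Matrix (Fin d) (Fin d) ℝ) (H : Subgroup K.Γ) :
    ∃ F : ((MulAction.orbitRel.Quotient H K.V → Fin d → ℝ) ×
        ZV (fun g : H => ρ (g : K.Γ))) →ₗ[ℝ] (K.V → Fin d → ℝ),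
      (∀ x (g : H) (v : K.V), F x ((g : K.Γ) • v) = ρ g *ᵥ F x v + x.2.1 g) ∧
      ∀ x (O : MulAction.orbitRel.Quotient H K.V), F x (Quotient.out O) = x.1 O := by
  classical
  obtain ⟨G, hG, hGm, hG1⟩ := ELow_coord K H
  refine ⟨{ toFun := fun x v => ρ (G v : K.Γ) *ᵥ x.1 (Quotient.mk _ v) + x.2.1 (G v)
            map_add' := ?_
            map_smul' := ?_ }, ?_, ?_⟩
  · intro x y
    funext v
    simp only [Prod.fst_add, Prod.snd_add, Pi.add_apply, Submodule.coe_add, Matrix.mulVec_add]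
    abel
  · intro c x
    funext v
    simp only [Prod.smul_fst, Prod.smul_snd, Pi.smul_apply, SetLike.val_smul,
      Matrix.mulVec_smul, RingHom.id_apply, smul_add]
  · intro x g v
    have h1 : (Quotient.mk _ ((g : K.Γ) • v) : MulAction.orbitRel.Quotient H K.V) =
        Quotient.mk _ v := Quotient.sound ⟨g, rfl⟩
    have h2 : G ((g : K.Γ) • v) = g * G v := hGm g v
    have h3 := x.2.2 g (G v)
    show ρ (G ((g : K.Γ) • v) : K.Γ) *ᵥ x.1 (Quotient.mk _ ((g : K.Γ) • v)) +
      x.2.1 (G ((g : K.Γ) • v)) = ρ g *ᵥ (ρ (G v : K.Γ) *ᵥ x.1 (Quotient.mk _ v) +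
      x.2.1 (G v)) + x.2.1 g
    rw [h1, h2, h3, Subgroup.coe_mul, map_mul, Matrix.mulVec_add, Matrix.mulVec_mulVec]
    abel
  · intro x O
    show ρ (G (Quotient.out O) : K.Γ) *ᵥ x.1 (Quotient.mk _ (Quotient.out O)) +
      x.2.1 (G (Quotient.out O)) = x.1 O
    have h4 : x.2.1 1 = 0 := ELow_one (ρ := fun g : H => ρ (g : K.Γ)) (by
      show ρ ((1 : H) : K.Γ) = 1
      rw [Subgroup.coe_one, map_one]) x.2.2
    rw [hG1, Quotient.out_eq, h4, Subgroup.coe_one, map_one, Matrix.one_mulVec, add_zero]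

private theorem ELow_lin {d : ℕ} (ρ : K.Γ →* Matrix (Fin d) (Fin d) ℝ) (H : Subgroup K.Γ)
    {E : Type*} [AddCommGroup E] [Module ℝ E] (F : E →ₗ[ℝ] (K.V → Fin d → ℝ))
    (z : E → H → Fin d → ℝ)
    (hF : ∀ x (g : H) (v : K.V), F x ((g : K.Γ) • v) = ρ g *ᵥ F x v + z x g) :
    ∃ L : E →ₗ[ℝ] ESol ℝ (cyc K) (fun g => ρ g) H,
      ∀ x (e : EdT K), (L x).1 e = F x e.1.2 - F x e.1.1 := by
  refine ⟨LinearMap.codRestrict _
    { toFun := fun x (e : EdT K) => F x e.1.2 - F x e.1.1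
      map_add' := ?_
      map_smul' := ?_ } ?_, ?_⟩
  · intro x y
    funext e
    simp only [map_add, Pi.add_apply]
    abel
  · intro c x
    funext e
    simp only [map_smul, Pi.smul_apply, RingHom.id_apply, smul_sub]
  · intro x
    refine ⟨?_, ?_⟩
    · intro h hh e
      have h1 := hF x ⟨h, hh⟩ e.1.2
      have h2 := hF x ⟨h, hh⟩ e.1.1
      show F x (h • e).1.2 - F x (h • e).1.1 = ρ h *ᵥ (F x e.1.2 - F x e.1.1)
      have h3 : (h • e).1 = h • e.1 := edT_smul_val K h e
      rw [h3]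
      show F x (h • e.1.2) - F x (h • e.1.1) = ρ h *ᵥ (F x e.1.2 - F x e.1.1)
      rw [Matrix.mulVec_sub]
      have h1' : F x (h • e.1.2) = ρ h *ᵥ F x e.1.2 + z x ⟨h, hh⟩ := h1
      have h2' : F x (h • e.1.1) = ρ h *ᵥ F x e.1.1 + z x ⟨h, hh⟩ := h2
      rw [h1', h2']
      abel
    · intro t
      have h1 := cyc_sum K (R := ℝ) t (fun e : EdT K => F x e.1.2 - F x e.1.1)
      refine h1.trans ?_
      show F x t.1.2.1 - F x t.1.1 + (F x t.1.2.2 - F x t.1.2.1) -
        (F x t.1.2.2 - F x t.1.1) = 0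
      abel
  · intro x e
    rfl

private theorem ELow_const (hc : Connected K) {M : Type*} (f : K.V → M)
    (h : ∀ e : EdT K, f e.1.2 = f e.1.1) (u v : K.V) : f v = f u := by
  have h1 := hc.2 u v
  induction h1 with
  | refl => rfl
  | tail _ hbc ih => exact (h ⟨(_, _), hbc⟩).trans ih

private theorem ELow_abs {E W : Type*} [AddCommGroup E] [Module ℝ E] [AddCommGroup W]
    [Module ℝ W] (hE : Module.Finite ℝ E) (hW : Module.Finite ℝ W) {d : ℕ} (L : E →ₗ[ℝ] W)
    (ev : E →ₗ[ℝ] (Fin d → ℝ)) (h : ∀ x, L x = 0 → ev x = 0 → x = 0) :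
    Module.finrank ℝ E ≤ Module.finrank ℝ W + d := by
  have h1 := LinearMap.finrank_range_add_finrank_ker L
  have h2 : Module.finrank ℝ (LinearMap.range L) ≤ Module.finrank ℝ W :=
    Submodule.finrank_le _
  have h3 : Module.finrank ℝ (LinearMap.ker L) ≤ d := by
    have h4 : Function.Injective (ev.comp (LinearMap.ker L).subtype) := by
      rw [injective_iff_map_eq_zero]
      intro x hx
      apply Subtype.ext
      exact h x.1 x.2 hx
    have h5 := LinearMap.finrank_le_finrank_of_injective h4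
    rw [Module.finrank_fin_fun] at h5
    exact h5
  omega

theorem esol_finrank_ge (hc : Connected K) {d : ℕ} (ρ : K.Γ →* Matrix (Fin d) (Fin d) ℝ)
    (H : Subgroup K.Γ) (hH : H.FiniteIndex) :
    d * Nat.card (MulAction.orbitRel.Quotient H K.V) +
        Module.finrank ℝ (ZV (fun g : H => ρ (g : K.Γ))) ≤
      Module.finrank ℝ (ESol ℝ (cyc K) (fun g => ρ g) H) + d := by
  classical
  have hfin1 : Module.Finite ℝ (ESol ℝ (cyc K) (fun g => ρ g) H) :=
    ELow_esol_fin (cyc K) (fun g => ρ g) H hH (edT_finite K)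
  have hfg : Group.FG H := by
    have := gamma_fg K hc
    have := hH
    infer_instance
  have hfin2 : Module.Finite ℝ (ZV (fun g : H => ρ (g : K.Γ))) := ELow_zv_fin hfg _ (by
    show ρ ((1 : H) : K.Γ) = 1
    rw [Subgroup.coe_one, map_one])
  have hfin3 : Finite (MulAction.orbitRel.Quotient H K.V) := finite_orbits H hH
  have := Fintype.ofFinite (MulAction.orbitRel.Quotient H K.V)
  obtain ⟨F, hF1, hF2⟩ := ELow_map K ρ H
  obtain ⟨L, hL⟩ := ELow_lin K ρ H F (fun x => x.2.1) hF1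
  obtain ⟨v₀⟩ := hc.1
  have hmain := ELow_abs (inferInstance) hfin1 L
    ((LinearMap.proj v₀ : (K.V → Fin d → ℝ) →ₗ[ℝ] (Fin d → ℝ)).comp F) (by
      intro x hx hx0
      have h1 : ∀ e : EdT K, F x e.1.2 = F x e.1.1 := by
        intro e
        have h2 := hL x e
        rw [hx] at h2
        exact (sub_eq_zero.1 h2.symm)
      have h2 : F x v₀ = 0 := hx0
      have h3 : ∀ v, F x v = 0 := fun v => (ELow_const K hc (F x) h1 v₀ v).trans h2
      have h4 : x.1 = 0 := by
        funext O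
        rw [← hF2 x O, h3]
        rfl
      have h5 : x.2 = 0 := by
        apply Subtype.ext
        funext g
        have h6 := hF1 x g v₀
        rw [h3, h3, Matrix.mulVec_zero, zero_add] at h6
        exact h6.symm
      exact Prod.ext h4 h5)
  have h7 : Module.finrank ℝ ((MulAction.orbitRel.Quotient H K.V → Fin d → ℝ) ×
      ZV (fun g : H => ρ (g : K.Γ))) =
      d * Nat.card (MulAction.orbitRel.Quotient H K.V) +
        Module.finrank ℝ (ZV (fun g : H => ρ (g : K.Γ))) := by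
    rw [Module.finrank_prod, Module.finrank_pi_fintype]
    simp only [Module.finrank_fin_fun, Finset.sum_const, Finset.card_univ, smul_eq_mul,
      Nat.card_eq_fintype_card]
    rw [mul_comm]
  rw [h7] at hmain
  exact hmain

end Pool.Agent.ChB
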