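import Pool.Agent.ChB.Defs

/-!
# The linear system of the 1-cocycles

`cyc_sum`: the support of `cyc K t` is contained in `{e01 t, e12 t, e02 t}` (the edges may coincide), and sums
over the support are sums over any larger set; `Finsupp.sum` is additive in the coefficients.
-/

namespace Pool.Agent.ChB

open Matrix Pool.Agent.ChP Pool.Agent.ChS Pool.Agent.ChL Pool.Agent.ELS
open scoped Pointwise

variable {n : ℕ} (K : AffineTriangulation n)

theorem edT_free (g : K.Γ) (e : EdT K) (h : g • e = e) : g = 1 := by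
  have h1 : g • e.1 = e.1 := by
    rw [← edT_smul_val, h]
  have h2 : g • e.1.1 = e.1.1 := congrArg Prod.fst h1
  exact v_free g e.1.1 h2

theorem edT_finite : Finite (MulAction.orbitRel.Quotient K.Γ (EdT K)) := by
  classical
  obtain ⟨F, hF⟩ := K.cocompact
  have hT : Set.Finite {e : EdT K | e.1 ∈ (((F.biUnion id) ×ˢ (F.biUnion id) :
      Finset (K.V × K.V)) : Set (K.V × K.V))} :=
    Set.Finite.preimage (Subtype.val_injective.injOn) (Finset.finite_toSet _)
  haveI : Finite {e : EdT K | e.1 ∈ (((F.biUnion id) ×ˢ (F.biUnion id) :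
      Finset (K.V × K.V)) : Set (K.V × K.V))} := hT.to_subtype
  refine Finite.of_surjective (fun e : {e : EdT K | e.1 ∈ (((F.biUnion id) ×ˢ (F.biUnion id) :
      Finset (K.V × K.V)) : Set (K.V × K.V))} =>
      (Quotient.mk'' e.1 : MulAction.orbitRel.Quotient K.Γ (EdT K))) ?_
  intro q
  induction q using Quotient.inductionOn' with
  | h e =>
    obtain ⟨γ, hγ⟩ := hF _ e.2
    have hm : (γ • e : EdT K) ∈ {e : EdT K | e.1 ∈ (((F.biUnion id) ×ˢ (F.biUnion id) :
        Finset (K.V × K.V)) : Set (K.V × K.V))} := by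
      show (γ • e : EdT K).1 ∈ (((F.biUnion id) ×ˢ (F.biUnion id) :
        Finset (K.V × K.V)) : Set (K.V × K.V))
      rw [edT_smul_val, Finset.mem_coe, Finset.mem_product]
      constructor
      · rw [Finset.mem_biUnion]
        refine ⟨_, hγ, ?_⟩
        show (γ • e.1).1 ∈ γ • ({e.1.1, e.1.2} : Finset K.V)
        exact Finset.smul_mem_smul_finset (by simp)
      · rw [Finset.mem_biUnion]
        refine ⟨_, hγ, ?_⟩
        show (γ • e.1).2 ∈ γ • ({e.1.1, e.1.2} : Finset K.V)
        exact Finset.smul_mem_smul_finset (by simp)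
    refine ⟨⟨γ • e, hm⟩, ?_⟩
    exact Quotient.sound' ⟨γ, rfl⟩

private theorem EdgeSys_apply (t : TrT K) (x : EdT K) :
    cyc K t x = Finsupp.single (e01 t) (1 : ℤ) x + Finsupp.single (e12 t) (1 : ℤ) x -
      Finsupp.single (e02 t) (1 : ℤ) x := rfl

private theorem EdgeSys_one {M : Type*} [AddCommGroup M] {R : Type*} [CommRing R] [Module R M]
    {X : Type*} [DecidableEq X] (S : Finset X) (a : X) (ha : a ∈ S) (f : X → M) :
    ∑ x ∈ S, ((Finsupp.single a (1 : ℤ) x : ℤ) : R) • f x = f a := by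
  rw [Finset.sum_eq_single a]
  · rw [Finsupp.single_eq_same, Int.cast_one, one_smul]
  · intro b _ hb
    rw [Finsupp.single_eq_of_ne hb, Int.cast_zero, zero_smul]
  · intro h
    exact absurd ha h

theorem cyc_sum {R M : Type*} [CommRing R] [AddCommGroup M] [Module R M] (t : TrT K)
    (f : EdT K → M) :
    ∑ x ∈ (cyc K t).support, ((cyc K t x : ℤ) : R) • f x = f (e01 t) + f (e12 t) - f (e02 t) := by
  classical
  set S : Finset (EdT K) := (cyc K t).support ∪ {e01 t, e12 t, e02 t} with hS
  have h1 : ∑ x ∈ (cyc K t).support, ((cyc K t x : ℤ) : R) • f x =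
      ∑ x ∈ S, ((cyc K t x : ℤ) : R) • f x := by
    refine Finset.sum_subset Finset.subset_union_left fun x _ hx => ?_
    rw [Finsupp.notMem_support_iff.1 hx, Int.cast_zero, zero_smul]
  have ha : e01 t ∈ S := Finset.mem_union_right _ (by simp)
  have hb : e12 t ∈ S := Finset.mem_union_right _ (by simp)
  have hc : e02 t ∈ S := Finset.mem_union_right _ (by simp)
  rw [h1, ← EdgeSys_one (R := R) S (e01 t) ha f, ← EdgeSys_one (R := R) S (e12 t) hb f,
    ← EdgeSys_one (R := R) S (e02 t) hc f, ← Finset.sum_add_distrib, ← Finset.sum_sub_distrib]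
  refine Finset.sum_congr rfl fun x _ => ?_
  rw [EdgeSys_apply, Int.cast_sub, Int.cast_add, sub_smul, add_smul]

theorem cyc_norm (t : TrT K) : ∑ x ∈ (cyc K t).support, |cyc K t x| ≤ ((3 : ℕ) : ℤ) := by
  classical
  have key : ∀ (S : Finset (EdT K)) (a : EdT K),
      ∑ x ∈ S, |Finsupp.single a (1 : ℤ) x| ≤ 1 := by
    intro S a
    have h1 : ∑ x ∈ S, |Finsupp.single a (1 : ℤ) x| = ∑ x ∈ S, if x = a then (1 : ℤ) else 0 := by
      refine Finset.sum_congr rfl fun x _ => ?_
      by_cases h : x = a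
      · rw [if_pos h, h, Finsupp.single_eq_same, abs_one]
      · rw [if_neg h, Finsupp.single_eq_of_ne h, abs_zero]
    rw [h1, Finset.sum_ite_eq']
    split_ifs
    · exact le_refl _
    · exact zero_le_one
  have h2 : ∑ x ∈ (cyc K t).support, |cyc K t x| ≤
      ∑ x ∈ (cyc K t).support, (|Finsupp.single (e01 t) (1 : ℤ) x| +
        |Finsupp.single (e12 t) (1 : ℤ) x| + |Finsupp.single (e02 t) (1 : ℤ) x|) := by
    refine Finset.sum_le_sum fun x _ => ?_
    rw [EdgeSys_apply]
    refine (abs_sub _ _).trans ?_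
    have h3 := abs_add_le (Finsupp.single (e01 t) (1 : ℤ) x) (Finsupp.single (e12 t) (1 : ℤ) x)
    linarith
  rw [Finset.sum_add_distrib, Finset.sum_add_distrib] at h2
  have h3 := key (cyc K t).support (e01 t)
  have h4 := key (cyc K t).support (e12 t)
  have h5 := key (cyc K t).support (e02 t)
  push_cast
  linarith

end Pool.Agent.ChB
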