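import Pool.Agent.ChB.Defs
import Pool.Agent.ChS.Z1Dim

/-!
# The twisted alternating forms as a representation on `ℝ^6`

The alternating `4 × 4`-matrices have dimension 6; choose coordinates (a linear equivalence with
`Fin 6 → ℝ`; `finrank_eq`, or the six entries above the diagonal).  `K.Γ` acts on them by `act (K.lin g)`, and
`act (K.lin (g h)) = act (K.lin g) ∘ act (K.lin h)`, `act (K.lin 1) = id` (the determinant of `K.lin g` is not
zero).  In coordinates this is a homomorphism to the matrices, and the crossed homomorphisms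
correspond to each other.
-/

namespace Pool.Agent.ChB

open Matrix Pool.Agent.ChP Pool.Agent.ChS Pool.Agent.ChL Pool.Agent.ELS
open scoped Pointwise

/-- the entries above the diagonal -/
private def WCoord_co (A : Matrix (Fin 4) (Fin 4) ℝ) : Fin 6 → ℝ :=
  ![A 0 1, A 0 2, A 0 3, A 1 2, A 1 3, A 2 3]

/-- the alternating matrix with given entries above the diagonal -/
private def WCoord_mk (v : Fin 6 → ℝ) : Matrix (Fin 4) (Fin 4) ℝ :=
  !![0, v 0, v 1, v 2; -v 0, 0, v 3, v 4; -v 1, -v 3, 0, v 5; -v 2, -v 4, -v 5, 0]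

private theorem WCoord_co_mk (v : Fin 6 → ℝ) : WCoord_co (WCoord_mk v) = v := by
  ext i
  fin_cases i <;> rfl

private theorem WCoord_mk_alt (v : Fin 6 → ℝ) : (WCoord_mk v)ᵀ = -WCoord_mk v := by
  ext i j
  fin_cases i <;> fin_cases j <;> simp [WCoord_mk]

private theorem WCoord_mk_co (A : Matrix (Fin 4) (Fin 4) ℝ) (hA : Aᵀ = -A) :
    WCoord_mk (WCoord_co A) = A := by
  have hs : ∀ i j, A j i = -A i j := fun i j => congrFun (congrFun hA i) j
  have hd : ∀ i, A i i = 0 := fun i => by have := hs i i; linarith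
  have h10 : A 1 0 = -A 0 1 := hs 0 1
  have h20 : A 2 0 = -A 0 2 := hs 0 2
  have h30 : A 3 0 = -A 0 3 := hs 0 3
  have h21 : A 2 1 = -A 1 2 := hs 1 2
  have h31 : A 3 1 = -A 1 3 := hs 1 3
  have h32 : A 3 2 = -A 2 3 := hs 2 3
  ext i j
  fin_cases i <;> fin_cases j <;>
    first
    | exact (hd _).symm
    | exact h10.symm
    | exact h20.symm
    | exact h30.symm
    | exact h21.symm
    | exact h31.symm
    | exact h32.symm
    | rfl

private theorem WCoord_co_add (A B : Matrix (Fin 4) (Fin 4) ℝ) :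
    WCoord_co (A + B) = WCoord_co A + WCoord_co B := by
  ext i
  fin_cases i <;> rfl

private theorem WCoord_co_smul (c : ℝ) (A : Matrix (Fin 4) (Fin 4) ℝ) :
    WCoord_co (c • A) = c • WCoord_co A := by
  ext i
  fin_cases i <;> rfl

private theorem WCoord_mk_add (v w : Fin 6 → ℝ) :
    WCoord_mk (v + w) = WCoord_mk v + WCoord_mk w := by
  ext i j
  fin_cases i <;> fin_cases j <;> simp [WCoord_mk] <;> ring

private theorem WCoord_mk_smul (c : ℝ) (v : Fin 6 → ℝ) :
    WCoord_mk (c • v) = c • WCoord_mk v := by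
  ext i j
  fin_cases i <;> fin_cases j <;> simp [WCoord_mk]

private theorem WCoord_act_alt (g A : Matrix (Fin 4) (Fin 4) ℝ) (hA : Aᵀ = -A) :
    (act g A)ᵀ = -act g A := by
  unfold act
  rw [Matrix.transpose_smul, Matrix.transpose_mul, Matrix.transpose_mul, hA,
    Matrix.transpose_transpose, Matrix.neg_mul, Matrix.mul_neg, smul_neg, Matrix.mul_assoc]

private theorem WCoord_act_smul (g : Matrix (Fin 4) (Fin 4) ℝ) (c : ℝ)
    (A : Matrix (Fin 4) (Fin 4) ℝ) : act g (c • A) = c • act g A := by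
  unfold act
  rw [Matrix.mul_smul, Matrix.smul_mul, smul_comm]

/-- the action in coordinates -/
private noncomputable def WCoord_lin (g : Matrix (Fin 4) (Fin 4) ℝ) :
    (Fin 6 → ℝ) →ₗ[ℝ] (Fin 6 → ℝ) where
  toFun v := WCoord_co (act g (WCoord_mk v))
  map_add' v w := by
    rw [WCoord_mk_add, act_add, WCoord_co_add]
  map_smul' c v := by
    rw [WCoord_mk_smul, WCoord_act_smul, WCoord_co_smul, RingHom.id_apply]

/-- the representation on `ℝ^6` -/
private noncomputable def WCoord_rho {G : Type*} [Group G]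
    (ρ : G →* Matrix (Fin 4) (Fin 4) ℝ) : G →* Matrix (Fin 6) (Fin 6) ℝ where
  toFun g := LinearMap.toMatrix' (WCoord_lin (ρ g))
  map_one' := by
    have h : WCoord_lin (ρ 1) = LinearMap.id := by
      refine LinearMap.ext fun v => ?_
      change WCoord_co (act (ρ 1) (WCoord_mk v)) = v
      rw [map_one, act_one, WCoord_co_mk]
    rw [h, LinearMap.toMatrix'_id]
  map_mul' g h := by
    have h1 : WCoord_lin (ρ (g * h)) = (WCoord_lin (ρ g)).comp (WCoord_lin (ρ h)) := by
      refine LinearMap.ext fun v => ?_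
      change WCoord_co (act (ρ (g * h)) (WCoord_mk v)) =
        WCoord_co (act (ρ g) (WCoord_mk (WCoord_co (act (ρ h) (WCoord_mk v)))))
      rw [WCoord_mk_co _ (WCoord_act_alt _ _ (WCoord_mk_alt v)), act_mul]
    rw [h1, LinearMap.toMatrix'_comp]

private theorem WCoord_rho_mulVec {G : Type*} [Group G]
    (ρ : G →* Matrix (Fin 4) (Fin 4) ℝ) (g : G) (v : Fin 6 → ℝ) :
    WCoord_rho ρ g *ᵥ v = WCoord_co (act (ρ g) (WCoord_mk v)) := by
  change LinearMap.toMatrix' (WCoord_lin (ρ g)) *ᵥ v = _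
  rw [LinearMap.toMatrix'_mulVec]
  rfl

/-- the crossed homomorphisms in coordinates -/
private noncomputable def WCoord_eq {G : Type*} [Group G]
    (ρ : G →* Matrix (Fin 4) (Fin 4) ℝ) (H : Subgroup G) :
    Z1 (ρ.comp H.subtype) ≃ₗ[ℝ] ZV (fun g : H => WCoord_rho ρ (g : G)) where
  toFun z := ⟨fun g => WCoord_co (z.1 g), fun g h => by
    change WCoord_co (z.1 (g * h)) = WCoord_co (z.1 g) + WCoord_rho ρ (g : G) *ᵥ WCoord_co (z.1 h)
    rw [z.2.2 g h, WCoord_co_add, WCoord_rho_mulVec, WCoord_mk_co _ (z.2.1 h)]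
    rfl⟩
  map_add' z w := Subtype.ext (funext fun g => WCoord_co_add _ _)
  map_smul' c z := Subtype.ext (funext fun g => WCoord_co_smul _ _)
  invFun w := ⟨fun g => WCoord_mk (w.1 g), fun g => WCoord_mk_alt _, fun g h => by
    change WCoord_mk (w.1 (g * h)) = WCoord_mk (w.1 g) + act (ρ (g : G)) (WCoord_mk (w.1 h))
    rw [w.2 g h, WCoord_mk_add, WCoord_rho_mulVec,
      WCoord_mk_co _ (WCoord_act_alt _ _ (WCoord_mk_alt _))]⟩
  left_inv z := Subtype.ext (funext fun g => WCoord_mk_co _ (z.2.1 g))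
  right_inv w := Subtype.ext (funext fun g => WCoord_co_mk _)

theorem exists_rho (K : AffineTriangulation 4) :
    ∃ ρ : K.Γ →* Matrix (Fin 6) (Fin 6) ℝ, ∀ H : Subgroup K.Γ,
      Module.finrank ℝ (Z1 (K.lin.comp H.subtype)) =
        Module.finrank ℝ (ZV (fun g : H => ρ (g : K.Γ))) :=
  ⟨WCoord_rho K.lin, fun H => (WCoord_eq K.lin H).finrank_eq⟩

end Pool.Agent.ChB
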