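import Pool.Agent.ChB.TLow
import Pool.Agent.ChB.ELow
import Pool.Agent.ChB.WCoord
import Pool.Agent.ELS.Compare
import Pool.Agent.ChS.FinalSd

/-!
# The first Betti numbers of finite coverings of closed affine 4-manifolds
-/

namespace Pool.Agent.ChB

open Matrix Pool.Agent.ChP Pool.Agent.ChS Pool.Agent.ChL Pool.Agent.ELS
open scoped Pointwise

theorem final_Z1_le (K : AffineTriangulation 4) (hc : Connected K) (h1 : H1Zero K) (N : ℕ) :
    ∃ Γ₀ : Subgroup K.Γ, Γ₀.FiniteIndex ∧ ∀ H : Subgroup K.Γ, H ≤ Γ₀ → H.FiniteIndex →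
      N * Module.finrank ℝ (Z1 (K.lin.comp H.subtype)) ≤
        N * (6 * Module.finrank ℚ (HomR ℚ H)) + H.index := by
  obtain ⟨ρ, hρ⟩ := exists_rho K
  obtain ⟨Γ₀, hΓ₀, hcomp⟩ := comparison (gamma_fg K hc) (edT_free K) (edT_finite K) (cyc K) 3
    (cyc_norm K) 6 ρ N
  refine ⟨Γ₀, hΓ₀, fun H hH hHi => ?_⟩
  have h2 := hcomp H hH hHi
  have h3 := tsol_finrank K hc h1 H hHi
  have h4 := esol_finrank_ge K hc ρ H hHi
  rw [hρ H]
  obtain ⟨o, ho⟩ : ∃ o, o = Nat.card (MulAction.orbitRel.Quotient H K.V) := ⟨_, rfl⟩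
  obtain ⟨b, hb⟩ : ∃ b, b = Module.finrank ℚ (HomR ℚ H) := ⟨_, rfl⟩
  obtain ⟨z, hz⟩ : ∃ z, z = Module.finrank ℝ (ZV (fun g : H => ρ (g : K.Γ))) := ⟨_, rfl⟩
  obtain ⟨e, he⟩ : ∃ e, e = Module.finrank ℝ (ESol ℝ (cyc K) (fun g => ρ g) H) := ⟨_, rfl⟩
  obtain ⟨t, ht⟩ : ∃ t, t = Module.finrank ℚ (TSol ℚ (cyc K) H) := ⟨_, rfl⟩
  rw [← he, ← ht] at h2
  rw [← ht, ← ho, ← hb] at h3
  rw [← ho, ← hz, ← he] at h4
  rw [← hb, ← hz]
  have h5 : 6 * o + z ≤ e + 6 := h4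
  have h6 : N * (6 * o + z) ≤ N * (e + 6) := Nat.mul_le_mul_left N h5
  have h7 : N * (6 * (t + 1)) ≤ N * (6 * (o + b)) :=
    Nat.mul_le_mul_left N (Nat.mul_le_mul_left 6 h3)
  have h8 : N * (6 * o + z) = N * (6 * o) + N * z := by ring
  have h9 : N * (e + 6) = N * e + N * 6 := by ring
  have h10 : N * (6 * (t + 1)) = N * (6 * t) + N * 6 := by ring
  have h11 : N * (6 * (o + b)) = N * (6 * o) + N * (6 * b) := by ring
  omega

/-- The first Betti numbers of deep finite coverings. -/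
theorem final_betti (K : AffineTriangulation 4) (hc : Connected K) (h1 : H1Zero K) (N : ℕ) :
    ∃ Γ₀ : Subgroup K.Γ, Γ₀.FiniteIndex ∧ ∀ H : Subgroup K.Γ, H ≤ Γ₀ → H.FiniteIndex →
      (N : ℤ) * (8 * (H.index * |K.eulerChar|) + 6) ≤
        N * (3 * (H.index * K.eulerChar) + 6 * (Module.finrank ℚ (HomR ℚ H) : ℤ)) +
          H.index := by
  obtain ⟨Γ₀, hΓ₀, hle⟩ := final_Z1_le K hc h1 N
  refine ⟨Γ₀, hΓ₀, fun H hH hHi => ?_⟩
  have hG : Group.FG K.Γ := gamma_fg K hc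
  obtain ⟨S, hS⟩ : H.FG := (Group.fg_iff_subgroup_fg H).1 (Subgroup.fg_of_index_ne_zero H)
  have h2 := (final_main K hc h1 H hHi S hS).1
  have h3 : ((N * Module.finrank ℝ (Z1 (K.lin.comp H.subtype)) : ℕ) : ℤ) ≤
      ((N * (6 * Module.finrank ℚ (HomR ℚ H)) + H.index : ℕ) : ℤ) := by
    exact_mod_cast hle H hH hHi
  push_cast at h3
  have h4 : (N : ℤ) * (8 * (H.index * |K.eulerChar|) + 6) ≤
      N * (3 * (H.index * K.eulerChar) +
        (Module.finrank ℝ (Z1 (K.lin.comp H.subtype)) : ℤ)) :=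
    mul_le_mul_of_nonneg_left h2 (Int.natCast_nonneg N)
  have h5 : (N : ℤ) * (3 * (H.index * K.eulerChar) +
        (Module.finrank ℝ (Z1 (K.lin.comp H.subtype)) : ℤ)) =
      N * (3 * (H.index * K.eulerChar)) +
        N * (Module.finrank ℝ (Z1 (K.lin.comp H.subtype)) : ℤ) := by ring
  have h6 : (N : ℤ) * (3 * (H.index * K.eulerChar) + 6 * (Module.finrank ℚ (HomR ℚ H) : ℤ)) =
      N * (3 * (H.index * K.eulerChar)) + N * (6 * (Module.finrank ℚ (HomR ℚ H) : ℤ)) := by ring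
  rw [h5] at h4
  rw [h6]
  linarith

/-- If the Euler characteristic is not zero then the first Betti number of the deep finite
coverings grows linearly. -/
theorem final_growth (K : AffineTriangulation 4) (hc : Connected K) (h1 : H1Zero K)
    (hχ : K.eulerChar ≠ 0) :
    ∃ Γ₀ : Subgroup K.Γ, Γ₀.FiniteIndex ∧ ∀ H : Subgroup K.Γ, H ≤ Γ₀ → H.FiniteIndex →
      4 * H.index ≤ 5 * Module.finrank ℚ (HomR ℚ H) := by
  obtain ⟨Γ₀, hΓ₀, hle⟩ := final_betti K hc h1 5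
  refine ⟨Γ₀, hΓ₀, fun H hH hHi => ?_⟩
  have h := hle H hH hHi
  have h2 : (1 : ℤ) ≤ |K.eulerChar| := Int.one_le_abs hχ
  have h3 : K.eulerChar ≤ |K.eulerChar| := le_abs_self _
  have h4 : (0 : ℤ) ≤ H.index := Int.natCast_nonneg _
  have h5 : (H.index : ℤ) * K.eulerChar ≤ H.index * |K.eulerChar| :=
    mul_le_mul_of_nonneg_left h3 h4
  have h6 : (H.index : ℤ) * 1 ≤ H.index * |K.eulerChar| :=
    mul_le_mul_of_nonneg_left h2 h4
  have h7 : (4 * (H.index : ℤ)) ≤ 5 * (Module.finrank ℚ (HomR ℚ H) : ℤ) := by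
    push_cast at h
    omega
  exact_mod_cast h7

end Pool.Agent.ChB
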