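import Pool.Agent.ChB.EdgeSys

/-!
# Rational 1-cocycles of finite coverings

Let `c ∈ TSol ℚ (cyc K) H`, i.e. (`cyc_sum`) `c` is an `H`-invariant function on ordered edges with
`c (u, v) + c (v, w) = c (u, w)`.  By `H1Zero` (applied to the real function given by `c`, extended by `0` to
pairs which are not edges) there is a real function `f` with `c (u, v) = f v - f u` on edges; by `Connected` the
differences of the values of `f` are rational, so we may assume that `f` is rational, with `f v₀ = 0`, and it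
is unique.  For `h ∈ H`, `f (h v) - f v` does not depend on `v` and defines an element of `HomR ℚ H`.
So `c ↦ f` is an injective linear map to the space of the functions `f : V → ℚ` which are invariant under `H`
up to a homomorphism, with `f v₀ = 0`, and this space has dimension
`card orbits + finrank (HomR ℚ H) - 1` (as in `qInv_finrank`; `f` is determined by its values at
representatives and the homomorphism; `HomR ℚ H` is finite dimensional because `H` is finitely
generated).
-/

namespace Pool.Agent.ChB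

open Matrix Pool.Agent.ChP Pool.Agent.ChS Pool.Agent.ChL Pool.Agent.ELS
open scoped Pointwise

variable {n : ℕ} (K : AffineTriangulation n)

private theorem TLow_homR_finite {G : Type*} [Group G] (hG : Group.FG G)
    (H : Subgroup G) (hH : H.FiniteIndex) : Module.Finite ℚ (HomR ℚ H) := by
  classical
  have := hG
  have := hH
  have hfg : Group.FG H := inferInstance
  obtain ⟨S, hS⟩ := Group.fg_iff.mp hfg
  have : Finite S := hS.2
  obtain ⟨L, hL⟩ : ∃ L : HomR ℚ H →ₗ[ℚ] (S → ℚ),
      ∀ f s, L f s = f.1 s.1 :=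
    ⟨{ toFun := fun f s => f.1 s.1
       map_add' := fun a b => rfl
       map_smul' := fun c a => rfl }, fun f s => rfl⟩
  refine Module.Finite.of_injective L ?_
  rw [injective_iff_map_eq_zero]
  intro f hf
  have hfm := f.2
  have h1 : f.1 1 = 0 := by
    have h2 := hfm 1 1
    rw [mul_one] at h2
    have h3 : f.1 1 + f.1 1 = f.1 1 + 0 := by rw [← h2, add_zero]
    exact add_left_cancel h3
  have h4 : ∀ x : H, f.1 x = 0 := by
    intro x
    have hx : x ∈ Subgroup.closure S := by
      rw [hS.1]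
      exact Subgroup.mem_top x
    refine Subgroup.closure_induction (p := fun y _ => f.1 y = 0) ?_ h1 ?_ ?_ hx
    · intro y hy
      have h5 := hL f ⟨y, hy⟩
      rw [hf] at h5
      exact h5.symm
    · intro a b _ _ ha hb
      rw [hfm a b, ha, hb, add_zero]
    · intro a _ ha
      have h6 := hfm a a⁻¹
      rw [mul_inv_cancel, h1, ha, zero_add] at h6
      exact h6.symm
  apply Subtype.ext
  funext x
  exact h4 x

/-- The rational functions which are invariant under `H` up to constants. -/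
private def TLow_Q (v₀ : K.V) (H : Subgroup K.Γ) : Submodule ℚ (K.V → ℚ) where
  carrier := {f | ∀ g ∈ H, ∀ v : K.V, f (g • v) - f v = f (g • v₀) - f v₀}
  add_mem' := by
    intro a b ha hb g hg v
    have h1 := ha g hg v
    have h2 := hb g hg v
    simp only [Pi.add_apply]
    linear_combination h1 + h2
  zero_mem' := by
    intro g hg v
    simp
  smul_mem' := by
    intro c a ha g hg v
    have h1 := ha g hg v
    simp only [Pi.smul_apply, smul_eq_mul]
    linear_combination c * h1

private theorem TLow_Q_fin (hc : Connected K) (v₀ : K.V) (H : Subgroup K.Γ)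
    (hH : H.FiniteIndex) :
    Module.Finite ℚ (TLow_Q K v₀ H) ∧ Module.finrank ℚ (TLow_Q K v₀ H) ≤
      Nat.card (MulAction.orbitRel.Quotient H K.V) + Module.finrank ℚ (HomR ℚ H) := by
  classical
  have hΓ : Group.FG K.Γ := gamma_fg K hc
  have := TLow_homR_finite hΓ H hH
  have := finite_orbits (K := K) H hH
  have : Fintype (MulAction.orbitRel.Quotient H K.V) := Fintype.ofFinite _
  have hmem : ∀ f : TLow_Q K v₀ H,
      (fun g : H => f.1 ((g : K.Γ) • v₀) - f.1 v₀) ∈ HomR ℚ H := by
    intro f g h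
    have h1 := f.2 g.1 g.2 (h.1 • v₀)
    change f.1 (((g * h : H) : K.Γ) • v₀) - f.1 v₀ = (f.1 ((g : K.Γ) • v₀) - f.1 v₀) +
      (f.1 ((h : K.Γ) • v₀) - f.1 v₀)
    rw [Subgroup.coe_mul, mul_smul]
    linear_combination h1
  obtain ⟨L, hL1, hL2⟩ : ∃ L : TLow_Q K v₀ H →ₗ[ℚ]
      (MulAction.orbitRel.Quotient H K.V → ℚ) × HomR ℚ H,
      (∀ f O, (L f).1 O = f.1 (Quotient.out O)) ∧
      (∀ f g, (L f).2.1 g = f.1 ((g : K.Γ) • v₀) - f.1 v₀) := by
    refine ⟨{ toFun := fun f => (fun O => f.1 (Quotient.out O), ⟨_, hmem f⟩)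
              map_add' := ?_
              map_smul' := ?_ }, fun f O => rfl, fun f g => rfl⟩
    · intro a b
      refine Prod.ext rfl (Subtype.ext ?_)
      funext g
      change (a.1 + b.1) ((g : K.Γ) • v₀) - (a.1 + b.1) v₀ =
        (a.1 ((g : K.Γ) • v₀) - a.1 v₀) + (b.1 ((g : K.Γ) • v₀) - b.1 v₀)
      simp only [Pi.add_apply]
      ring
    · intro c a
      refine Prod.ext rfl (Subtype.ext ?_)
      funext g
      change (c • a.1) ((g : K.Γ) • v₀) - (c • a.1) v₀ =
        c • (a.1 ((g : K.Γ) • v₀) - a.1 v₀)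
      simp only [Pi.smul_apply, smul_eq_mul]
      ring
  have hinj : Function.Injective L := by
    rw [injective_iff_map_eq_zero]
    intro f hf
    have h1 : ∀ O : MulAction.orbitRel.Quotient H K.V, f.1 (Quotient.out O) = 0 := by
      intro O
      rw [← hL1, hf]
      rfl
    have h2 : ∀ g : H, f.1 ((g : K.Γ) • v₀) - f.1 v₀ = 0 := by
      intro g
      rw [← hL2, hf]
      rfl
    apply Subtype.ext
    funext v
    have h3 : (Quotient.mk _ v : MulAction.orbitRel.Quotient H K.V) =
        Quotient.mk _ (Quotient.out (Quotient.mk _ v : MulAction.orbitRel.Quotient H K.V)) :=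
      (Quotient.out_eq _).symm
    obtain ⟨g, hg⟩ := Quotient.exact h3
    have h4 : (g : K.Γ) • (Quotient.out (Quotient.mk _ v : MulAction.orbitRel.Quotient H K.V)) =
        v := hg
    have h5 := f.2 g.1 g.2 (Quotient.out (Quotient.mk _ v : MulAction.orbitRel.Quotient H K.V))
    rw [h4, h2 g, h1, sub_zero] at h5
    exact h5
  refine ⟨Module.Finite.of_injective L hinj, ?_⟩
  refine (LinearMap.finrank_le_finrank_of_injective hinj).trans ?_
  rw [Module.finrank_prod, Module.finrank_fintype_fun_eq_card, Nat.card_eq_fintype_card]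

/-- The coboundary map. -/
private def TLow_D (v₀ : K.V) (H : Subgroup K.Γ) : TLow_Q K v₀ H →ₗ[ℚ] TSol ℚ (cyc K) H where
  toFun f := ⟨fun e => f.1 e.1.2 - f.1 e.1.1, by
    refine ⟨fun h hh e => ?_, fun t => ?_⟩
    · have h1 := f.2 h hh e.1.1
      have h2 := f.2 h hh e.1.2
      change f.1 (h • e.1.2) - f.1 (h • e.1.1) = f.1 e.1.2 - f.1 e.1.1
      linear_combination h2 - h1
    · have h1 := cyc_sum (R := ℚ) K t (fun e : EdT K => f.1 e.1.2 - f.1 e.1.1)
      simp only [smul_eq_mul] at h1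
      rw [h1]
      change (f.1 t.1.2.1 - f.1 t.1.1) + (f.1 t.1.2.2 - f.1 t.1.2.1) -
        (f.1 t.1.2.2 - f.1 t.1.1) = 0
      ring⟩
  map_add' a b := by
    apply Subtype.ext
    funext e
    change (a.1 e.1.2 + b.1 e.1.2) - (a.1 e.1.1 + b.1 e.1.1) =
      (a.1 e.1.2 - a.1 e.1.1) + (b.1 e.1.2 - b.1 e.1.1)
    ring
  map_smul' c a := by
    apply Subtype.ext
    funext e
    change c * a.1 e.1.2 - c * a.1 e.1.1 = c * (a.1 e.1.2 - a.1 e.1.1)
    ring

private theorem TLow_edge {u v w : K.V} (h : ({u, v, w} : Finset K.V) ∈ K.faces) :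
    ({u, v} : Finset K.V) ∈ K.faces ∧ ({v, w} : Finset K.V) ∈ K.faces ∧
      ({u, w} : Finset K.V) ∈ K.faces := by
  refine ⟨K.down_closed _ h _ ?_ (by simp), K.down_closed _ h _ ?_ (by simp),
    K.down_closed _ h _ ?_ (by simp)⟩
  all_goals
    intro x hx
    simp only [Finset.mem_insert, Finset.mem_singleton] at hx ⊢
    tauto

private theorem TLow_D_surj (hc : Connected K) (h1 : H1Zero K) (v₀ : K.V) (H : Subgroup K.Γ) :
    Function.Surjective (TLow_D K v₀ H) := by
  classical
  intro c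
  obtain ⟨c', hc'⟩ : ∃ c' : K.V → K.V → ℝ, ∀ (u v : K.V) (h : ({u, v} : Finset K.V) ∈ K.faces),
      c' u v = (c.1 ⟨(u, v), h⟩ : ℝ) := by
    refine ⟨fun u v => if h : ({u, v} : Finset K.V) ∈ K.faces then (c.1 ⟨(u, v), h⟩ : ℝ) else 0,
      fun u v h => ?_⟩
    simp only [dif_pos h]
  obtain ⟨f, hf⟩ := h1 c' (by
    intro u v w h
    obtain ⟨a1, a2, a3⟩ := TLow_edge K h
    rw [hc' u v a1, hc' v w a2, hc' u w a3]
    have h2 := c.2.2 ⟨(u, v, w), h⟩
    have h3 := cyc_sum (R := ℚ) K ⟨(u, v, w), h⟩ c.1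
    simp only [smul_eq_mul] at h3
    rw [h2] at h3
    have h4 : c.1 ⟨(u, v), a1⟩ + c.1 ⟨(v, w), a2⟩ - c.1 ⟨(u, w), a3⟩ = 0 := h3.symm
    have h5 : c.1 ⟨(u, v), a1⟩ + c.1 ⟨(v, w), a2⟩ = c.1 ⟨(u, w), a3⟩ := by
      linear_combination h4
    rw [← h5]
    push_cast
    ring)
  have hrat : ∀ v : K.V, ∃ q : ℚ, (q : ℝ) = f v - f v₀ := by
    intro v
    have h2 := hc.2 v₀ v
    induction h2 with
    | refl => exact ⟨0, by simp⟩
    | tail hpp h3 ih =>
      rename_i u w
      obtain ⟨q, hq⟩ := ih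
      refine ⟨q + c.1 ⟨(u, w), h3⟩, ?_⟩
      have h4 := hf u w h3
      rw [hc' u w h3] at h4
      rw [Rat.cast_add, hq, h4]
      ring
  choose F hF using hrat
  have hedge : ∀ (u v : K.V) (h : ({u, v} : Finset K.V) ∈ K.faces),
      F v - F u = c.1 ⟨(u, v), h⟩ := by
    intro u v h
    have h2 := hf u v h
    rw [hc' u v h] at h2
    have h3 : ((F v - F u : ℚ) : ℝ) = ((c.1 ⟨(u, v), h⟩ : ℚ) : ℝ) := by
      rw [Rat.cast_sub, hF, hF, h2]
      ring
    exact_mod_cast h3
  have hQ : F ∈ TLow_Q K v₀ H := by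
    intro g hg v
    have h2 := hc.2 v₀ v
    induction h2 with
    | refl => rfl
    | tail hpp h3 ih =>
      rename_i u w
      have h4 : ({g • u, g • w} : Finset K.V) ∈ K.faces := ed_inv g (u, w) h3
      have h5 := hedge _ _ h4
      have h6 := hedge _ _ h3
      have h7 : c.1 ⟨(g • u, g • w), h4⟩ = c.1 ⟨(u, w), h3⟩ := c.2.1 g hg ⟨(u, w), h3⟩
      rw [h7] at h5
      linear_combination h5 - h6 + ih
  refine ⟨⟨F, hQ⟩, ?_⟩
  apply Subtype.ext
  funext e
  change F e.1.2 - F e.1.1 = c.1 e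
  rw [hedge e.1.1 e.1.2 e.2]
  rfl

theorem tsol_finrank (hc : Connected K) (h1 : H1Zero K) (H : Subgroup K.Γ)
    (hH : H.FiniteIndex) :
    Module.finrank ℚ (TSol ℚ (cyc K) H) + 1 ≤
      Nat.card (MulAction.orbitRel.Quotient H K.V) + Module.finrank ℚ (HomR ℚ H) := by
  obtain ⟨v₀⟩ := hc.1
  obtain ⟨hfin, hle⟩ := TLow_Q_fin K hc v₀ H hH
  have := hfin
  have hs := TLow_D_surj K hc h1 v₀ H
  have hrn := LinearMap.finrank_range_add_finrank_ker (TLow_D K v₀ H)
  rw [LinearMap.range_eq_top.2 hs, finrank_top] at hrn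
  have hone : (fun _ : K.V => (1 : ℚ)) ∈ TLow_Q K v₀ H := by
    intro g _ v
    rfl
  have hker : (⟨fun _ => 1, hone⟩ : TLow_Q K v₀ H) ∈ LinearMap.ker (TLow_D K v₀ H) := by
    rw [LinearMap.mem_ker]
    apply Subtype.ext
    funext e
    change (1 : ℚ) - 1 = 0
    ring
  have hne : LinearMap.ker (TLow_D K v₀ H) ≠ ⊥ := by
    intro h
    rw [h, Submodule.mem_bot] at hker
    have h2 := congrFun (congrArg Subtype.val hker) v₀
    change (1 : ℚ) = 0 at h2
    exact one_ne_zero h2
  have hpos : 1 ≤ Module.finrank ℚ (LinearMap.ker (TLow_D K v₀ H)) :=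
    Submodule.one_le_finrank_iff.2 hne
  omega

end Pool.Agent.ChB
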